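import Pool.Agent.Q269.IsoFour.Count
import Pool.Agent.TH841.NF.FamN
import Pool.Agent.TH841.SH.Ht
import Pool.Agent.W307.RT.Tors

/-!
# Project FieldFour: ranks over number fields and the 2-isogeny
-/

set_option autoImplicit false

namespace Pool.Agent.Q269.FieldFour

open WeierstrassCurve Module Finset
open Pool.Agent.Y700 (VR)
open Pool.Agent.Q269.IsoFour
open Pool.Agent.W307.RT (Sh Cv HasT)

/-- the curve `y² = x³ + A x + B` over `F` -/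
def EF (A B : ℤ) (F : Type) [Field F] : WeierstrassCurve F := ⟨0, 0, 0, (A : F), (B : F)⟩

/-- the quadratic twist by `d` of the curve `y² = x³ + A x + B`, `c = (A, B)`, over `F` -/
def Tw (d : ℤ) (c : ℤ × ℤ) (F : Type) [Field F] : WeierstrassCurve F :=
  EF (d ^ 2 * c.1) (d ^ 3 * c.2) F

/-- the number field `F` is generated by square roots of the integers `d i` -/
def Gen (F : Type) [Field F] [NumberField F] {s : ℕ} (d : Fin s → ℤ) : Prop :=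
  ∃ x : Fin s → F, (∀ i, x i ^ 2 = (d i : F)) ∧
    IntermediateField.adjoin ℚ (Set.range x) = ⊤

section

variable {F : Type} [Field F] [NumberField F] [DecidableEq F]

theorem ef_disc (A B : ℤ) : (EF A B F).Δ = -16 * (4 * (A : F) ^ 3 + 27 * (B : F) ^ 2) := by
  simp only [EF, WeierstrassCurve.Δ, WeierstrassCurve.b₂, WeierstrassCurve.b₄,
    WeierstrassCurve.b₆, WeierstrassCurve.b₈]
  ring

theorem ef_ne {A B : ℤ} (h : 4 * A ^ 3 + 27 * B ^ 2 ≠ 0) : (EF A B F).Δ ≠ 0 := by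
  rw [ef_disc]
  have : (4 * (A : F) ^ 3 + 27 * (B : F) ^ 2) ≠ 0 := by exact_mod_cast h
  exact mul_ne_zero (by norm_num) this

theorem rank_vr {W W' : WeierstrassCurve F} {u r s t : F} (h : VR W W' u r s t) (hD : W'.Δ ≠ 0) :
    finrank ℤ W'.toAffine.Point = finrank ℤ W.toAffine.Point :=
  (h.equiv hD).toIntLinearEquiv.finrank_eq

/-- scaling -/
theorem rank_scale {A B A' B' : ℤ} {u : ℤ} (hu : u ≠ 0) (hA : A = u ^ 4 * A') (hB : B = u ^ 6 * B')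
    (hD : 4 * A' ^ 3 + 27 * B' ^ 2 ≠ 0) :
    finrank ℤ (EF A B F).toAffine.Point = finrank ℤ (EF A' B' F).toAffine.Point := by
  have hv : VR (EF A B F) (EF A' B' F) (u : F) 0 0 0 := by
    refine ⟨by exact_mod_cast hu, ?_, ?_, ?_, ?_, ?_⟩ <;> simp [EF, hA, hB]
  exact (rank_vr hv (ef_ne hD)).symm

theorem rank_le {A B e s : ℤ} (hA : A = s ^ 2 - 3 * e ^ 2) (hB : B = 2 * e ^ 3 - s ^ 2 * e)
    (hD : 4 * A ^ 3 + 27 * B ^ 2 ≠ 0) :
    finrank ℤ (EF A B F).toAffine.Point ≤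
      finrank ℤ (EF (-3 * e ^ 2 - 4 * s ^ 2) (2 * e ^ 3 - 8 * e * s ^ 2) F).toAffine.Point := by
  have hdisc : 4 * A ^ 3 + 27 * B ^ 2 = s ^ 4 * (4 * s ^ 2 - 9 * e ^ 2) := by
    rw [hA, hB]; ring
  rw [hdisc] at hD
  have hs : s ≠ 0 := by
    rintro rfl; apply hD; ring
  have h9 : 4 * s ^ 2 - 9 * e ^ 2 ≠ 0 := by
    intro h; apply hD; rw [h]; ring
  have h2 : (2 : F) ≠ 0 := by norm_num
  have hDQ : (Wab (-2 * (3 * (e : F))) ((3 * (e : F)) ^ 2 - 4 * (s : F) ^ 2)).Δ ≠ 0 := by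
    rw [delta]
    have e1 : (3 * (e : F)) ^ 2 - 4 * (s : F) ^ 2 ≠ 0 := by
      intro h
      apply h9
      have : ((4 * s ^ 2 - 9 * e ^ 2 : ℤ) : F) = 0 := by push_cast; linear_combination -h
      exact_mod_cast this
    have e2 : (-2 * (3 * (e : F))) ^ 2 - 4 * ((3 * (e : F)) ^ 2 - 4 * (s : F) ^ 2)
        = 16 * (s : F) ^ 2 := by ring
    rw [e2]
    have hsQ : (s : F) ≠ 0 := by exact_mod_cast hs
    exact mul_ne_zero (mul_ne_zero (by norm_num) (pow_ne_zero 2 e1))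
      (mul_ne_zero (by norm_num) (pow_ne_zero 2 hsQ))
  have hv1 : VR (EF A B F) (Wab (3 * (e : F)) ((s : F) ^ 2)) 1 (e : F) 0 0 := by
    refine ⟨one_ne_zero, ?_, ?_, ?_, ?_, ?_⟩
    · simp [EF, Wab]
    · simp [EF, Wab]
    · simp [EF, Wab]
    · simp only [EF, Wab, hA]; push_cast; ring
    · simp only [EF, Wab, hA, hB]; push_cast; ring
  have hv2 : VR (EF (-3 * e ^ 2 - 4 * s ^ 2) (2 * e ^ 3 - 8 * e * s ^ 2) F)
      (Wab (-2 * (3 * (e : F))) ((3 * (e : F)) ^ 2 - 4 * (s : F) ^ 2)) 1 (-2 * (e : F)) 0 0 := by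
    refine ⟨one_ne_zero, ?_, ?_, ?_, ?_, ?_⟩
    · simp [EF, Wab]
    · simp only [EF, Wab]; push_cast; ring
    · simp [EF, Wab]
    · simp only [EF, Wab]; push_cast; ring
    · simp only [EF, Wab]; push_cast; ring
  have hD1 := delta_ne hDQ
  rw [← rank_vr hv1 hD1, ← rank_vr hv2 hDQ]
  apply rank_hom (Pool.Agent.Q286.EQ.mordell_weil F _ hD1)
    (Pool.Agent.Q286.EQ.mordell_weil F _ hDQ) (phiHom hDQ h2)
  intro P hP
  rcases phiHom_ker hDQ h2 P hP with h | h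
  · rw [h, smul_zero]
  · rw [h, two_smul]
    exact T_add_T hDQ

theorem disc_tw {d : ℤ} (hd : d ≠ 0) {A B : ℤ} (h : 4 * A ^ 3 + 27 * B ^ 2 ≠ 0) :
    4 * (d ^ 2 * A) ^ 3 + 27 * (d ^ 3 * B) ^ 2 ≠ 0 := by
  have : 4 * (d ^ 2 * A) ^ 3 + 27 * (d ^ 3 * B) ^ 2 = d ^ 6 * (4 * A ^ 3 + 27 * B ^ 2) := by ring
  rw [this]
  exact mul_ne_zero (pow_ne_zero 6 hd) h

/-- the isogenous curve with full 2-torsion -/
theorem rank_FR {d : ℤ} (hd : d ≠ 0) {c : ℤ × ℤ} {c' : (ℤ × ℤ) × ℤ} (h : FR c c') (hD : Dn c)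
    (hD' : Dn c'.1) :
    finrank ℤ (Tw d c F).toAffine.Point ≤ finrank ℤ (Tw d c'.1 F).toAffine.Point := by
  obtain ⟨e, s, u, ⟨h1, h2⟩, hu, -, h4, h5⟩ := h
  have g := rank_le (F := F) (A := d ^ 2 * c.1) (B := d ^ 3 * c.2) (e := d * e) (s := d * s)
    (by rw [h1]; ring) (by rw [h2]; ring) (disc_tw hd hD)
  refine g.trans (le_of_eq ?_)
  exact rank_scale hu.ne' (by linear_combination d ^ 2 * h4) (by linear_combination d ^ 3 * h5)
    (disc_tw hd hD')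

/-- the reverse relation -/
theorem rank_RR {d : ℤ} (hd : d ≠ 0) {c : ℤ × ℤ} {c' : (ℤ × ℤ) × ℤ} (h : RR c c') (hD : Dn c)
    (hD' : Dn c'.1) :
    finrank ℤ (Tw d c'.1 F).toAffine.Point ≤ finrank ℤ (Tw d c F).toAffine.Point := by
  obtain ⟨e, s, w, hw, h1, h2, -, h4, h5⟩ := h
  have e1 : finrank ℤ (EF (d ^ 2 * (s ^ 2 - 3 * e ^ 2)) (d ^ 3 * (2 * e ^ 3 - s ^ 2 * e))
      F).toAffine.Point = finrank ℤ (Tw d c'.1 F).toAffine.Point :=
    rank_scale hw.ne' (by rw [h4]; ring) (by rw [h5]; ring) (disc_tw hd hD')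
  have hD2 : 4 * (s ^ 2 - 3 * e ^ 2) ^ 3 + 27 * (2 * e ^ 3 - s ^ 2 * e) ^ 2 ≠ 0 := by
    rw [h4, h5]
    have : 4 * (w ^ 4 * c'.1.1) ^ 3 + 27 * (w ^ 6 * c'.1.2) ^ 2 =
      w ^ 12 * (4 * c'.1.1 ^ 3 + 27 * c'.1.2 ^ 2) := by ring
    rw [this]
    exact mul_ne_zero (pow_ne_zero 12 hw.ne') hD'
  have g := rank_le (F := F) (A := d ^ 2 * (s ^ 2 - 3 * e ^ 2))
    (B := d ^ 3 * (2 * e ^ 3 - s ^ 2 * e)) (e := d * e) (s := d * s)
    (by ring) (by ring) (disc_tw hd hD2)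
  rw [e1] at g
  refine g.trans (le_of_eq ?_)
  exact rank_scale (u := 2) two_ne_zero (by linear_combination d ^ 2 * h1)
    (by linear_combination d ^ 3 * h2) (disc_tw hd hD)

end

open Classical in
/-- the rank over `F` of the twist by `d` -/
noncomputable def rkF (d : ℤ) (F : Type) [Field F] (c : ℤ × ℤ) : ℕ :=
  Module.finrank ℤ (Tw d c F).toAffine.Point

theorem rkF_FR {F : Type} [Field F] [NumberField F] {d : ℤ} (hd : d ≠ 0) {c : ℤ × ℤ}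
    {c' : (ℤ × ℤ) × ℤ} (h : FR c c') (hD : Dn c) (hD' : Dn c'.1) : rkF d F c ≤ rkF d F c'.1 := by
  classical
  exact rank_FR hd h hD hD'

theorem rkF_RR {F : Type} [Field F] [NumberField F] {d : ℤ} (hd : d ≠ 0) {c : ℤ × ℤ}
    {c' : (ℤ × ℤ) × ℤ} (h : RR c c') (hD : Dn c) (hD' : Dn c'.1) : rkF d F c'.1 ≤ rkF d F c := by
  classical
  exact rank_RR hd h hD hD'

/-- the curves with full 2-torsion -/
theorem full : ∃ C : ℝ, 0 ≤ C ∧ ∀ (d₀ : ℤ) (s : ℕ) (d : Fin s → ℤ), d₀ ≠ 0 → (∀ i, d i ≠ 0) →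
    ∀ (F : Type) [Field F] [NumberField F], Gen F d → ∀ H : ℕ,
    ∑ c ∈ Cv 2 H, ((2 : ℝ) ^ rkF d₀ F c) ^ ((2 : ℝ) / 2 ^ s) ≤
      C * 128 ^ (d₀ * ∏ i, d i).natAbs.primeFactors.card * (Cv 2 H).card := by
  obtain ⟨C, hC0, hC⟩ := Pool.Agent.TH841.SH.twist_height
  obtain ⟨Φ, -, hΦ⟩ := Pool.Agent.W513.FK.parf
  refine ⟨C, by positivity, fun d₀ s d hd₀ hd F _ _ hF H => ?_⟩
  have hdT : ∀ T : Finset (Fin s), d₀ * ∏ i ∈ T, d i ≠ 0 := fun T =>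
    mul_ne_zero hd₀ (prod_ne_zero_iff.2 fun i _ => hd i)
  have hn : (Fintype.card (Finset (Fin s)) : ℝ) = 2 ^ s := by
    rw [Fintype.card_finset, Fintype.card_fin]
    push_cast
    rfl
  have key := Pool.Agent.TH841.NF.famR (Cv 2 H) (fun _ => F) (fun c => Tw d₀ c F)
    (fun c => ∏ T : Finset (Fin s), ((Pool.Agent.W307.SE.SelR
      ((d₀ * ∏ i ∈ T, d i) ^ 2 * c.1) ((d₀ * ∏ i ∈ T, d i) ^ 3 * c.2)).ncard : ℝ))
    ((2 : ℝ) / 2 ^ s) (by positivity) (C * 128 ^ (d₀ * ∏ i, d i).natAbs.primeFactors.card *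
      (Cv 2 H).card) ?_ ?_
  · refine le_trans (sum_le_sum fun c _ => ?_) key.2.1
    refine Real.rpow_le_rpow (by positivity) ?_ (by positivity)
    refine pow_le_pow_right₀ (by norm_num) ?_
    exact Nat.le_add_right _ _
  · intro c hc q hq
    classical
    have hc' := hc
    unfold Pool.Agent.W307.RT.Cv at hc'
    obtain ⟨_, a1, a2, _, _, a3⟩ := mem_filter.1 hc'
    obtain ⟨-, -, -, -, -, e1, e2, e3, he, -, -⟩ := hΦ c a1 a3
    have g2 : ∀ T : Finset (Fin s), (∏ i ∈ T, d i) ^ 2 * (d₀ ^ 2 * c.1) =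
        (d₀ * ∏ i ∈ T, d i) ^ 2 * c.1 := fun T => by ring
    have g3 : ∀ T : Finset (Fin s), (∏ i ∈ T, d i) ^ 3 * (d₀ ^ 3 * c.2) =
        (d₀ * ∏ i ∈ T, d i) ^ 3 * c.2 := fun T => by ring
    refine Pool.Agent.TH841.NF.one_field hF hd (Pool.Agent.TH639.SL.disc_tw hd₀ a1) _ ?_ ?_ hq
    · intro T
      rw [g2, g3]
      have h1 := (hC _ (hdT T) H).1
      exact Pool.Agent.TH841.SH.bd_selR (Pool.Agent.TH639.SL.disc_tw (hdT T) a1)
        (Pool.Agent.TH639.SL.roots_tw he _) (h1 c hc)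
    · intro T
      rw [g2, g3]
      exact Pool.Agent.W307.RG.fin_tw a1 he (hdT T)
  · have h1 : ∀ c ∈ Cv 2 H, (∏ T : Finset (Fin s), ((Pool.Agent.W307.SE.SelR
        ((d₀ * ∏ i ∈ T, d i) ^ 2 * c.1)
        ((d₀ * ∏ i ∈ T, d i) ^ 3 * c.2)).ncard : ℝ)) ^ ((2 : ℝ) / 2 ^ s) ≤
        ∑ T : Finset (Fin s), ((1 : ℝ) / 2 ^ s) * ((Pool.Agent.W307.SE.SelR
          ((d₀ * ∏ i ∈ T, d i) ^ 2 * c.1) ((d₀ * ∏ i ∈ T, d i) ^ 3 * c.2)).ncard : ℝ) ^ 2 := by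
      intro c _
      have := Pool.Agent.TH841.NF.prod_rpow_le (fun T : Finset (Fin s) =>
        ((Pool.Agent.W307.SE.SelR ((d₀ * ∏ i ∈ T, d i) ^ 2 * c.1)
          ((d₀ * ∏ i ∈ T, d i) ^ 3 * c.2)).ncard : ℝ)) (fun T => Nat.cast_nonneg _)
      rw [hn] at this
      exact this
    refine (sum_le_sum h1).trans ?_
    rw [sum_comm]
    have h2 : ∀ T : Finset (Fin s), ∑ c ∈ Cv 2 H, ((1 : ℝ) / 2 ^ s) *
        ((Pool.Agent.W307.SE.SelR ((d₀ * ∏ i ∈ T, d i) ^ 2 * c.1)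
          ((d₀ * ∏ i ∈ T, d i) ^ 3 * c.2)).ncard : ℝ) ^ 2 ≤ ((1 : ℝ) / 2 ^ s) *
        (C * 128 ^ (d₀ * ∏ i, d i).natAbs.primeFactors.card * (Cv 2 H).card) := by
      intro T
      rw [← mul_sum]
      refine mul_le_mul_of_nonneg_left ?_ (by positivity)
      have h3 := (hC _ (hdT T) H).2
      refine h3.trans ?_
      have h4 : (d₀ * ∏ i ∈ T, d i).natAbs.primeFactors.card ≤
          (d₀ * ∏ i, d i).natAbs.primeFactors.card := by
        apply card_le_card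
        apply Nat.primeFactors_mono
        · rw [Int.natAbs_dvd_natAbs]
          exact mul_dvd_mul_left _ (prod_dvd_prod_of_subset _ _ _ (subset_univ T))
        · rw [Ne, Int.natAbs_eq_zero]
          exact hdT univ
      have h5 : (128 : ℝ) ^ (d₀ * ∏ i ∈ T, d i).natAbs.primeFactors.card ≤
          128 ^ (d₀ * ∏ i, d i).natAbs.primeFactors.card :=
        pow_le_pow_right₀ (by norm_num) h4
      gcongr
    refine (sum_le_sum fun T _ => h2 T).trans (le_of_eq ?_)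
    rw [sum_const, card_univ, nsmul_eq_mul, hn, ← mul_assoc]
    rw [mul_one_div_cancel (by positivity), one_mul]

/-- **the curves with a rational cyclic subgroup of order 4** -/
theorem four : ∃ C : ℝ, 0 ≤ C ∧ ∀ (d₀ : ℤ) (s : ℕ) (d : Fin s → ℤ), d₀ ≠ 0 → (∀ i, d i ≠ 0) →
    ∀ (F : Type) [Field F] [NumberField F], Gen F d → ∀ H : ℕ,
    ∑ c ∈ F4 H, ((2 : ℝ) ^ rkF d₀ F c) ^ ((2 : ℝ) / 2 ^ s) ≤
      C * 128 ^ (d₀ * ∏ i, d i).natAbs.primeFactors.card * (F4 H).card := by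
  obtain ⟨C, hC0, hC⟩ := full
  obtain ⟨D, hD, H0, hcmp⟩ := compare
  refine ⟨3 * C * (D + (Cv 2 (2000000 * H0)).card), by positivity,
    fun d₀ s d hd₀ hd F _ _ hF H => ?_⟩
  have h1 : ∑ c ∈ F4 H, ((2 : ℝ) ^ rkF d₀ F c) ^ ((2 : ℝ) / 2 ^ s) ≤
      3 * ∑ c ∈ Cv 2 (2000000 * H), ((2 : ℝ) ^ rkF d₀ F c) ^ ((2 : ℝ) / 2 ^ s) := by
    apply sum_rel (F4 H) _ (fun c c' => FR c c' ∧ Dn c'.1) _ _ (fun c => by positivity)
    · intro c hc
      obtain ⟨h1, h2, -, e, s', hP⟩ := mem_F4.1 hc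
      obtain ⟨c', g1, g2, g3, g4, g5, g6, g7⟩ := exists_fwd h1 hP
      refine ⟨c', ⟨g1, g2⟩, mem_Cv2.2 ⟨g2, g4 H h2, g3, g5⟩, g6, ?_⟩
      exact Real.rpow_le_rpow (by positivity)
        (pow_le_pow_right₀ (by norm_num) (rkF_FR hd₀ g1 h1 g2)) (by positivity)
    · intro c1 h1 c2 h2 d r1 r2
      exact FR_inj r1.1 r2.1 (mem_F4.1 h1).2.2.1 (mem_F4.1 h2).2.2.1
  have h2 := hC d₀ s d hd₀ hd F hF (2000000 * H)
  obtain ⟨P, hP⟩ : ∃ P : ℝ, P = 128 ^ (d₀ * ∏ i, d i).natAbs.primeFactors.card := ⟨_, rfl⟩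
  have hP0 : 0 ≤ P := by rw [hP]; positivity
  rw [← hP] at h2 ⊢
  rcases le_or_gt H0 H with hH | hH
  · obtain ⟨g1, g2⟩ := hcmp H hH
    calc ∑ c ∈ F4 H, ((2 : ℝ) ^ rkF d₀ F c) ^ ((2 : ℝ) / 2 ^ s)
        ≤ 3 * (C * P * (Cv 2 (2000000 * H)).card) := by linarith
      _ ≤ 3 * (C * P * (D * (F4 H).card)) := by gcongr
      _ ≤ 3 * C * (D + (Cv 2 (2000000 * H0)).card) * P * (F4 H).card := by
        have : 0 ≤ 3 * C * ((Cv 2 (2000000 * H0)).card : ℝ) * P * (F4 H).card := by positivity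
        linarith
  · rcases Nat.eq_zero_or_pos (F4 H).card with h0 | h0
    · rw [card_eq_zero] at h0
      rw [h0]
      simp
    · have g1 : (1 : ℝ) ≤ (F4 H).card := by exact_mod_cast h0
      have g2 : ((Cv 2 (2000000 * H)).card : ℝ) ≤ (Cv 2 (2000000 * H0)).card := by
        exact_mod_cast card_le_card (Cv_mono (Nat.mul_le_mul_left _ hH.le))
      calc ∑ c ∈ F4 H, ((2 : ℝ) ^ rkF d₀ F c) ^ ((2 : ℝ) / 2 ^ s)
          ≤ 3 * (C * P * (Cv 2 (2000000 * H)).card) := by linarith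
        _ ≤ 3 * (C * P * (Cv 2 (2000000 * H0)).card) := by gcongr
        _ = 3 * C * (Cv 2 (2000000 * H0)).card * P * 1 := by ring
        _ ≤ 3 * C * (Cv 2 (2000000 * H0)).card * P * (F4 H).card := by gcongr
        _ ≤ 3 * C * (D + (Cv 2 (2000000 * H0)).card) * P * (F4 H).card := by
          have : 0 ≤ 3 * C * D * P * (F4 H).card := by positivity
          linarith

end Pool.Agent.Q269.FieldFour
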