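import Pool.Agent.Q269.FieldFour.Rank
import Pool.Agent.Y667.QKR.Mult

/-!
# Project FieldFour: rank at most one over `ℚ(√f)`
-/

set_option autoImplicit false

namespace Pool.Agent.Q269.FieldFour

open WeierstrassCurve Module Finset
open Pool.Agent.Q269.IsoFour
open Pool.Agent.W307.RT (Sh Cv HasT)

/-- a property of the curves with full 2-torsion and the 2-isogenies -/
theorem transfer (P : ℤ × ℤ → Prop) (Q : ℤ × ℤ → Prop) [DecidablePred P] [DecidablePred Q]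
    (hPQ : ∀ (c : ℤ × ℤ) (d : (ℤ × ℤ) × ℤ), Dn c → HasT 2 (Sh c.1 c.2) → Dn d.1 → RR c d → P c →
      Q d.1) (H : ℕ) :
    (((Cv 2 (H / 5000)).filter P).card : ℝ) ≤ 3 * ((F4 H).filter Q).card := by
  have g4 := sum_rel ((Cv 2 (H / 5000)).filter P) ((F4 (5000 * (H / 5000))).filter Q) RR
    (fun _ => 1) (fun _ => 1) (fun _ => zero_le_one) (fun c hc => by
      rw [mem_filter] at hc
      obtain ⟨k1, k2, -, k3⟩ := mem_Cv2.1 hc.1
      obtain ⟨d, q1, q2, q3, q4, q5, q6, -⟩ := exists_rev k1 k3 k2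
      exact ⟨d, q1, mem_filter.2 ⟨mem_F4.2 ⟨q2, q4, q3, q5⟩, hPQ c d k1 k3 q2 q1 hc.2⟩, q6,
        le_rfl⟩) (fun c1 h1 c2 h2 d r1 r2 =>
      RR_inj r1 r2 (mem_Cv2.1 (mem_filter.1 h1).1).2.2.1 (mem_Cv2.1 (mem_filter.1 h2).1).2.2.1)
  have g5 : ((F4 (5000 * (H / 5000))).filter Q).card ≤ ((F4 H).filter Q).card :=
    card_le_card (filter_subset_filter _ (F4_mono (Nat.mul_div_le H 5000)))
  have g5' : (((F4 (5000 * (H / 5000))).filter Q).card : ℝ) ≤ ((F4 H).filter Q).card := by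
    exact_mod_cast g5
  simp only [sum_const, nsmul_eq_mul, mul_one] at g4
  linarith

open Classical in
/-- **rank at most one over `ℚ(√f)`** -/
theorem low {f : ℕ} (hf : f.Prime) (h8 : f % 8 = 1) : ∃ κ : ℝ, 0 < κ ∧ ∃ H0 : ℕ, ∀ H : ℕ,
    H0 ≤ H → κ * ((F4 H).card : ℝ) ≤ (((F4 H).filter (fun c => ∀ (F : Type) [Field F]
      [NumberField F] (s : F), s ^ 2 = (f : F) → IntermediateField.adjoin ℚ {s} = ⊤ →
      rkF 1 F c ≤ 1)).card : ℝ) := by
  obtain ⟨c0, hc0, H1, h1⟩ := Pool.Agent.Y667.QK.R.mainF hf h8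
  obtain ⟨D, hD, H2, h2⟩ := compare'
  refine ⟨c0 / (3 * D), by positivity, max (5000 * H1) H2, fun H hH => ?_⟩
  have hH1 : H1 ≤ H / 5000 := by
    rw [Nat.le_div_iff_mul_le (by norm_num)]
    have := (le_max_left (5000 * H1) H2).trans hH
    omega
  have hH2 : H2 ≤ H := (le_max_right _ _).trans hH
  have g1 := h1 (H / 5000) hH1
  have g2 := h2 H hH2
  have g3 := transfer (fun c => Pool.Agent.Y667.QK.R.TQR f c) (fun c => ∀ (F : Type) [Field F]
      [NumberField F] (s : F), s ^ 2 = (f : F) → IntermediateField.adjoin ℚ {s} = ⊤ →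
      rkF 1 F c ≤ 1) (fun c d hD hT hDd hR hP F _ _ s hs hgen => by
    have h3 : Module.finrank ℤ (EF c.1 c.2 F).toAffine.Point ≤ 1 :=
      Pool.Agent.Y667.QK.QF.rank_le hf.ne_zero hD hT (Pool.Agent.Y667.QK.R.tq_of hP) F s hs hgen
    have h4 := rkF_RR (F := F) one_ne_zero hR hD hDd
    have h5 : rkF 1 F c = Module.finrank ℤ (EF c.1 c.2 F).toAffine.Point := by
      unfold rkF Tw
      rw [one_pow, one_pow, one_mul, one_mul]
    omega) H
  have g4 : (((Cv 2 (H / 5000)).filter (Pool.Agent.Y667.QK.R.TQR f)).card : ℝ) ≤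
      (((Cv 2 (H / 5000)).filter (fun c => Pool.Agent.Y667.QK.R.TQR f c)).card : ℝ) := by
    apply Nat.cast_le.2
    apply card_le_card
    intro c hc
    rw [mem_filter] at hc ⊢
    exact hc
  calc c0 / (3 * D) * ((F4 H).card : ℝ) ≤ c0 / (3 * D) * (D * (Cv 2 (H / 5000)).card) := by
        gcongr
    _ = c0 * ((Cv 2 (H / 5000)).card : ℝ) / 3 := by field_simp
    _ ≤ _ := by linarith

end Pool.Agent.Q269.FieldFour
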